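import Pool.Agent.Y456.LG.Order

/-!
# Soulé's conjecture at `s = 0`: reduction to linear sections of `GL_m`

Let `M` be a square matrix of polynomials over `ℤ` each of whose entries is `0`, `1` or a variable
(`IsPattern`; each of the `d` variables occurs). The points `x` of the affine space `𝔸^d` over `ℤ` such that
`M(x)` is invertible form the scheme `secGL M`; it is the intersection of `GL_m` with an affine linear space
with equations `g_ij = 0`, `g_ij = 1`, `g_ij = g_kl`, and it is affine and smooth over `ℤ`, with connected
fibres of dimension `d`.

For an integer `n` and a scheme `X` of finite type over `ℤ`, `FormulaAt T n X` says that the zeta function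
of `X` has a meromorphic continuation, that the ranks of the groups `CH_n(X, i)` are finite and almost all
zero, and that `ord_{s = n} ζ(X, s) = ∑ (-1)^(i+1) rank CH_n(X, i)`. If `X` is regular, connected and of
dimension `d`, then `CH_0(X, i)` has the same rank as `H^(2d-i)(X, ℚ(d))`, so for `n = 0` this is the
formula of Soulé in Q1.

1. For each integer `n` and each `d`, the formula at `s = n` is true for the spectra of all rings generated
   by `d` elements (all closed subschemes of `𝔸^d`) if and only if it is true for the linear sections
   `secGL M` in `d` variables.
2. For each integer `n`, the formula at `s = n` is true for all schemes of finite type over `ℤ` if and only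
   if it is true for all linear sections `secGL M`.
3. The formula at `s = n` for the linear sections in `d + k` variables implies the formula at `s = n - k`
   for all rings generated by `d` elements. So `s = 0` implies all integers `n ≤ 0`.

The zeta functions are the actual ones. The higher Chow groups are given by known properties (`IsChow`:
localisation and homotopy invariance). If `sep` is true, all this is about separated schemes.
-/

namespace Pool.Agent.Results.MP_f3836a_nt.LinearSectionsOfGL

open CategoryTheory AlgebraicGeometry MvPolynomial Pool.Agent.Y116.UV Pool.Agent.Y111.HR
  Pool.Agent.Y456.LG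

/-- For each integer `n` the formula for the order of the zeta function at `s = n` is true for all
rings generated by `d` elements iff it is true for the linear sections of `GL_m` given by patterns of
zeros, ones and `d` variables; it is true for all schemes of finite type over `ℤ` iff this holds for all
`d`; and `d + k` variables at `s = n` give `d` generators at `s = n - k`. -/
theorem result (sep : Prop) (T : HigherChow) (hT : IsChow sep T) :
    (∀ (n : ℤ) (d : ℕ), ForRings T n d ↔ ForSections T n d) ∧
    (∀ n : ℤ, (∀ X : Sch ℤ, FT sep X → FormulaAt T n X) ↔ ∀ d : ℕ, ForSections T n d) ∧
    (∀ (n : ℤ) (d k : ℕ), ForSections T n (d + k) → ForRings T (n - k) d) ∧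
    ((∀ d : ℕ, ForSections T 0 d) →
      ∀ n : ℤ, n ≤ 0 → ∀ X : Sch ℤ, FT sep X → FormulaAt T n X) := by
  have h3 : ∀ (n : ℤ) (d k : ℕ), ForSections T n (d + k) → ForRings T (n - k) d := fun n d k h =>
    rings_shift hT k n d ((rings_iff hT n (d + k)).mpr h)
  refine ⟨rings_iff hT, all_iff hT, h3, ?_⟩
  intro h n hn
  refine (all_iff hT n).mpr fun d => (rings_iff hT n d).mp ?_
  have h1 := h3 0 d (-n).toNat (h _)
  have h2 : (0 : ℤ) - (((-n).toNat : ℕ) : ℤ) = n := by
    rw [Int.toNat_of_nonneg (by omega)]
    ring
  rwa [h2] at h1

end Pool.Agent.Results.MP_f3836a_nt.LinearSectionsOfGL
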